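import Pool.Agent.Helper20.IIC.Stmts

/-! # FINL: the comparison inequality in finite volume -/

namespace IIC

open Filter Topology Set
open scoped BigOperators

theorem finl_fkP_nonneg {V E : Type} [Fintype E] (ends : E → Sym2 V) (β : ℝ) (hβ : 0 ≤ β)
    (A : Set (Finset E)) : 0 ≤ fkP ends β A := by
  have h0 : ∀ T : Finset E, 0 ≤ fkw ends β T := by
    intro T
    unfold fkw
    have : 0 ≤ Real.exp (2 * β) - 1 := by
      have := Real.one_le_exp (show 0 ≤ 2 * β by linarith)
      linarith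
    positivity
  unfold fkP
  apply div_nonneg
  · exact Finset.sum_nonneg fun T _ => Set.indicator_nonneg (fun T _ => h0 T) T
  · exact Finset.sum_nonneg fun T _ => h0 T

theorem st_FINL (hFIN : ST_FIN) (hBR : ST_BR) : ST_FINL := by
  classical
  intro d hd β hβ Λ F hF o y W w D c a hc ha hw0 hw1 hoy hpos hD
  obtain ⟨hfin, hconn, hPW⟩ := hBR d Λ
  haveI : Fintype (QV Λ) := Fintype.ofFinite _
  set F' : Finset {e // e ∈ Λ} := F.subtype (fun e => e ∈ Λ) with hF'
  set C : QV Λ → QV Λ → ℝ := fun x z => fkP (qe Λ) β (cn (qe Λ) x z) with hC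
  set A : QV Λ → QV Λ → ℝ := fun x z => fkP (qe Λ) β (ef F' ∩ cn (qe Λ) x z) with hA
  have hCc : ∀ x z, C (qm Λ x) (qm Λ z) = c x z := by
    intro x z
    rw [hc, hPW]
    show fkP _ _ _ = fkP _ _ _
    congr 1
    ext T
    exact hconn T x z
  have hAa : ∀ x z, A (qm Λ x) (qm Λ z) = a x z := by
    intro x z
    rw [ha, hPW]
    show fkP _ _ _ = fkP _ _ _
    congr 1
    ext T
    have h1 := hconn T x z
    have h2 : T ∈ ef F' ↔ exw Λ (qs T) ∈ EF F := by
      constructor
      · intro h e he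
        have heΛ := hF he
        have : (⟨e, heΛ⟩ : {e // e ∈ Λ}) ∉ T := by
          intro hT
          exact (Finset.disjoint_left.1 h hT) (by rw [hF', Finset.mem_subtype]; exact he)
        simp only [exw, ext, heΛ, if_true, decide_eq_false_iff_not]
        intro hq
        apply this
        rw [qs, Finset.mem_map] at hq
        obtain ⟨e', he', h3⟩ := hq
        have : e' = ⟨e, heΛ⟩ := Subtype.ext h3
        rwa [this] at he'
      · intro h
        show Disjoint T F'
        rw [Finset.disjoint_left]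
        intro e heT heF
        rw [hF', Finset.mem_subtype] at heF
        have h3 := h e.1 heF
        simp only [exw, ext, e.2, if_true, decide_eq_false_iff_not] at h3
        apply h3
        rw [qs, Finset.mem_map]
        exact ⟨e, heT, rfl⟩
    exact and_congr h2 h1
  set w' : QV Λ → ℝ := fun q => ∑ u ∈ W with qm Λ u = q, w u with hw'
  have hsum : ∀ g : QV Λ → ℝ, ∑ q, w' q * g q = ∑ u ∈ W, w u * g (qm Λ u) := by
    intro g
    rw [← Finset.sum_fiberwise W (fun u => qm Λ u) (fun u => w u * g (qm Λ u))]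
    refine Finset.sum_congr rfl fun q _ => ?_
    rw [hw', Finset.sum_mul]
    refine Finset.sum_congr rfl fun u hu => ?_
    rw [(Finset.mem_filter.1 hu).2]
  have hex : ∀ q, w' q ≠ 0 → ∃ u ∈ W, qm Λ u = q := by
    intro q hq
    by_contra hne
    push Not at hne
    apply hq
    rw [hw']
    apply Finset.sum_eq_zero
    intro u hu
    exact absurd (Finset.mem_filter.1 hu).2 (hne u (Finset.mem_filter.1 hu).1)
  have key := hFIN (QV Λ) {e // e ∈ Λ} (qe Λ) β F' (qm Λ o) (qm Λ y) w' D C A hβ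
    (fun _ _ => rfl) (fun _ _ => rfl) ?_ ?_ ?_ ?_ ?_
  · rw [hAa, hCc, hsum (fun u => A (qm Λ o) u / C (qm Λ o) u)] at key
    have e1 : ∑ u ∈ W, w u * (A (qm Λ o) (qm Λ u) / C (qm Λ o) (qm Λ u)) =
        ∑ u ∈ W, w u * (a o u / c o u) := by
      refine Finset.sum_congr rfl fun u _ => ?_
      rw [hAa, hCc]
    rw [e1] at key
    have e2 : ∑ u, ∑ v, w' u * w' v * (c o y * C u v *
        (1 / (C (qm Λ o) u * C v (qm Λ y)) + 1 / (C (qm Λ o) v * C u (qm Λ y)))) =
        ∑ u ∈ W, ∑ v ∈ W, w u * w v *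
        (c o y * c u v * (1 / (c o u * c v y) + 1 / (c o v * c u y))) := by
      have e3 : ∀ u, ∑ v, w' u * w' v * (c o y * C u v *
        (1 / (C (qm Λ o) u * C v (qm Λ y)) + 1 / (C (qm Λ o) v * C u (qm Λ y)))) =
          w' u * ∑ v ∈ W, w v * (c o y * C u (qm Λ v) *
        (1 / (C (qm Λ o) u * C (qm Λ v) (qm Λ y)) +
          1 / (C (qm Λ o) (qm Λ v) * C u (qm Λ y)))) := by
        intro u
        rw [← hsum (fun v => (c o y * C u v *
        (1 / (C (qm Λ o) u * C v (qm Λ y)) + 1 / (C (qm Λ o) v * C u (qm Λ y))))),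
          Finset.mul_sum]
        refine Finset.sum_congr rfl fun v _ => ?_
        ring
      rw [Finset.sum_congr rfl fun u _ => e3 u,
        hsum (fun u => ∑ v ∈ W, w v * (c o y * C u (qm Λ v) *
        (1 / (C (qm Λ o) u * C (qm Λ v) (qm Λ y)) +
          1 / (C (qm Λ o) (qm Λ v) * C u (qm Λ y)))))]
      refine Finset.sum_congr rfl fun u _ => ?_
      rw [Finset.mul_sum]
      refine Finset.sum_congr rfl fun v _ => ?_
      simp only [hCc]
      ring
    rw [e2] at key
    exact key
  · intro q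
    apply Finset.sum_nonneg
    intro u hu
    exact hw0 u (Finset.mem_filter.1 hu).1
  · have := hsum (fun _ => 1)
    simp only [mul_one] at this
    rw [this, hw1]
  · rw [hCc]; exact hoy
  · intro q hq
    obtain ⟨u, hu, rfl⟩ := hex q hq
    rw [hCc, hCc]
    exact hpos u hu
  · intro q hq
    obtain ⟨u, hu, rfl⟩ := hex q hq
    rw [hCc]
    refine le_trans ?_ (hD u hu)
    have hnn : ∀ x z, 0 ≤ C x z := fun x z => finl_fkP_nonneg _ _ hβ _
    have e1 : ∑ z ∈ vts F, c u z * c z y =
        ∑ z ∈ vts F, C (qm Λ u) (qm Λ z) * C (qm Λ z) (qm Λ y) := by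
      refine Finset.sum_congr rfl fun z _ => ?_
      rw [hCc, hCc]
    rw [e1, ← Finset.sum_fiberwise (vts F) (fun z => qm Λ z)
      (fun z => C (qm Λ u) (qm Λ z) * C (qm Λ z) (qm Λ y))]
    refine Finset.sum_le_sum fun q _ => ?_
    by_cases hq : q ∈ {z | IsEnd (qe Λ) F' z}
    · rw [Set.indicator_of_mem hq]
      obtain ⟨e, heF, hqe⟩ := hq
      rw [hF', Finset.mem_subtype] at heF
      rw [qe, Sym2.mem_map] at hqe
      obtain ⟨z, hz, hzq⟩ := hqe
      have hzv : z ∈ (vts F).filter (fun z => qm Λ z = q) := by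
        rw [Finset.mem_filter]
        refine ⟨?_, hzq⟩
        rw [vts, Finset.mem_biUnion]
        exact ⟨e.1, heF, Sym2.mem_toFinset.2 hz⟩
      have h1 := Finset.single_le_sum (f := fun z => C (qm Λ u) (qm Λ z) * C (qm Λ z) (qm Λ y))
        (fun z _ => mul_nonneg (hnn _ _) (hnn _ _)) hzv
      simp only [hzq] at h1
      exact h1
    · rw [Set.indicator_of_notMem hq]
      exact Finset.sum_nonneg fun z _ => mul_nonneg (hnn _ _) (hnn _ _)

end IIC
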