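import Pool.Agent.Helper20.IIC.Stmts

/-! # CS1: the case with an infinite cluster at the critical point -/

namespace IIC

set_option linter.unusedSectionVars false

open Filter Topology Set
open scoped BigOperators

variable {d : ℕ}

/-- Inclusion exclusion. -/
theorem cs1_incl (β : ℝ) (Λ F : Finset (Ed d)) (B : Set (Cfg d)) :
    PW β Λ (EF F ∩ B) = ∑ K ∈ F.powerset, (-1 : ℝ) ^ K.card * PW β Λ (UF K ∩ B) := by
  classical
  unfold PW
  simp_rw [← mul_div_assoc]
  rw [← Finset.sum_div]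
  congr 1
  simp_rw [Finset.mul_sum]
  rw [Finset.sum_comm]
  refine Finset.sum_congr rfl fun T _ => ?_
  generalize exw Λ T = ω
  generalize wW β Λ T = c
  by_cases hB : ω ∈ B
  · set F' := F.filter (fun e => ω e = true) with hF'
    have h1 : ∀ K ∈ F.powerset, (-1 : ℝ) ^ K.card * (UF K ∩ B).indicator (fun _ => c) ω =
        if K ∈ F'.powerset then (-1 : ℝ) ^ K.card * c else 0 := by
      intro K hK
      rw [Finset.mem_powerset] at hK
      by_cases hK' : K ∈ F'.powerset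
      · rw [if_pos hK', Set.indicator_of_mem]
        refine ⟨?_, hB⟩
        intro e he
        exact (Finset.mem_filter.1 ((Finset.mem_powerset.1 hK') he)).2
      · rw [if_neg hK', Set.indicator_of_notMem, mul_zero]
        intro h
        apply hK'
        rw [Finset.mem_powerset]
        intro e he
        exact Finset.mem_filter.2 ⟨hK he, h.1 e he⟩
    rw [Finset.sum_congr rfl h1, ← Finset.sum_filter]
    have h2 : F.powerset.filter (fun K => K ∈ F'.powerset) = F'.powerset := by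
      ext K
      rw [Finset.mem_filter]
      constructor
      · exact fun h => h.2
      · intro h
        refine ⟨?_, h⟩
        rw [Finset.mem_powerset] at h ⊢
        exact h.trans (Finset.filter_subset _ _)
    rw [h2, ← Finset.sum_mul]
    have h3 : ∑ K ∈ F'.powerset, (-1 : ℝ) ^ K.card = if F' = ∅ then 1 else 0 := by
      have := congrArg (fun z : ℤ => (z : ℝ)) (Finset.sum_powerset_neg_one_pow_card (x := F'))
      push_cast at this
      rw [this]
    rw [h3]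
    by_cases hE : F' = ∅
    · rw [if_pos hE, one_mul, Set.indicator_of_mem]
      refine ⟨?_, hB⟩
      intro e he
      by_contra hne
      have : e ∈ F' := Finset.mem_filter.2 ⟨he, by simpa using hne⟩
      rw [hE] at this
      simp at this
    · rw [if_neg hE, zero_mul, Set.indicator_of_notMem]
      intro h
      obtain ⟨e, he⟩ := Finset.nonempty_iff_ne_empty.2 hE
      have h4 := Finset.mem_filter.1 he
      have := h.1 e h4.1
      rw [h4.2] at this
      exact absurd this (by simp)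
  · rw [Set.indicator_of_notMem (fun h => hB h.2)]
    symm
    apply Finset.sum_eq_zero
    intro K _
    rw [Set.indicator_of_notMem (fun h => hB h.2), mul_zero]

/-- Translations. -/
def cs1_tr (x : Fin d → ℤ) : lat d ≃g lat d where
  toEquiv := Equiv.addRight x
  map_rel_iff' := by
    intro a b
    show (∑ i, |(a + x) i - (b + x) i| = 1) ↔ (∑ i, |a i - b i| = 1)
    simp

theorem cs1_nrm (v x : Fin d → ℤ) : nrm x ≤ nrm (v + x) + nrm v := by
  unfold nrm
  apply Finset.sup_le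
  intro i hi
  have h1 : ((v + x) i).natAbs ≤ Finset.univ.sup fun i => ((v + x) i).natAbs :=
    Finset.le_sup (f := fun i => ((v + x) i).natAbs) hi
  have h2 : (v i).natAbs ≤ Finset.univ.sup fun i => (v i).natAbs :=
    Finset.le_sup (f := fun i => (v i).natAbs) hi
  have h3 : (x i).natAbs ≤ ((v + x) i).natAbs + (v i).natAbs := by
    rw [Pi.add_apply]
    omega
  omega

theorem cs1_upper_inter {A B : Set (Cfg d)} (hA : IsUpperSet A) (hB : IsUpperSet B) :
    IsUpperSet (A ∩ B) := hA.inter hB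

/-- The event `0` is connected to a point of norm at least `n`, seen from `x`. -/
def cs1A (n : ℕ) (x : Fin d → ℤ) : Set (Cfg d) := {ω | ∃ z, n ≤ nrm (z - x) ∧ ω ∈ CN x z}

theorem cs1A_upper (hUPS : ST_UPS) (n : ℕ) (x : Fin d → ℤ) : IsUpperSet (cs1A n x) := by
  intro ω ω' hle h
  obtain ⟨z, hz, hc⟩ := h
  exact ⟨z, hz, (hUPS d x z ∅).1 hle hc⟩

section

variable (hd : 2 ≤ d) (hDOM : ST_DOM) (hFKG : ST_FKG) (hLIM : ST_LIM) (hTWB : ST_TWB)
  (hLATC : ST_LATC) (hCONT : ST_CONT) (hUPS : ST_UPS) (hINV : ST_INV) {β : ℝ} (hβ : 0 ≤ β)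

include hd hFKG hLIM hTWB hLATC hCONT hUPS hβ

theorem cs1_PW_nonneg (Λ : Finset (Ed d)) (A : Set (Cfg d)) : 0 ≤ PW β Λ A := by
  obtain ⟨-, h⟩ := hCONT d Λ
  obtain ⟨-, h0, hm, -, -⟩ := h β hβ
  rw [← h0]
  exact hm _ _ (Set.empty_subset _)

theorem cs1_lower (K : Finset (Ed d)) (x : Fin d → ℤ) :
    mW β (UF K ∩ IN 0) * th d β ≤ mW β (UF K ∩ CN 0 x) := by
  have hU1 : IsUpperSet (UF K ∩ IN (0 : Fin d → ℤ)) :=
    (hUPS d 0 0 K).2.2.inter (hUPS d 0 0 K).2.1
  have hU2 : IsUpperSet (UF K ∩ CN (0 : Fin d → ℤ) x) := (hUPS d 0 0 K).2.2.inter (hUPS d 0 x K).1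
  have hU3 : IsUpperSet (IN x) := (hUPS d x x K).2.1
  obtain ⟨hl, -⟩ := hLIM d β hβ
  have hth : mW β (IN x) = th d β := (hTWB d hd β hβ).2.2.1 x
  refine ge_of_tendsto' (hl _ hU2).1 fun Λ => ?_
  obtain ⟨-, hC⟩ := hCONT d Λ
  obtain ⟨-, -, hm, -, hc⟩ := hC β hβ
  have h1 : PW β Λ ((UF K ∩ IN 0) ∩ IN x) ≤ PW β Λ (UF K ∩ CN 0 x) := by
    rw [hc ((UF K ∩ IN 0) ∩ IN x) (((UF K ∩ IN 0) ∩ IN x) ∩ CN 0 x)]
    · exact hm _ _ (fun ω h => ⟨h.1.1.1, h.2⟩)
    · intro T hT
      constructor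
      · intro h
        exact ⟨h, (hLATC d hd).2.2 Λ T 0 x h.1.2 h.2⟩
      · exact fun h => h.1
  refine le_trans ?_ ((hFKG d β hβ Λ _ _ hU1 hU3).trans h1)
  rw [← hth]
  have h2 : 0 ≤ mW β (IN x) :=
    ge_of_tendsto' (hl _ hU3).1 fun Λ => cs1_PW_nonneg hd hFKG hLIM hTWB hLATC hCONT hUPS hβ Λ _
  exact mul_le_mul ((hl _ hU1).2.2.2 Λ) ((hl _ hU3).2.2.2 Λ) h2
    (cs1_PW_nonneg hd hFKG hLIM hTWB hLATC hCONT hUPS hβ Λ _)

include hDOM hINV

theorem cs1_upper (K L : Finset (Ed d)) :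
    ∃ R : ℕ, ∀ x : Fin d → ℤ, R ≤ nrm x →
      mW β (UF K ∩ CN 0 x) ≤ PW β L (UF K ∩ IN 0) * PW β L (IN 0) := by
  classical
  -- a radius outside of which everything is connected, uniformly in the configuration
  have h1 : ∀ T : Finset (Ed d), ∃ n : ℕ, ∀ x y : Fin d → ℤ, n ≤ nrm x → n ≤ nrm y →
      LConn (exw L T) x y := fun T => (hLATC d hd).2.1 L T
  choose n hn using h1
  set N : ℕ := L.powerset.sup n with hN
  set M : ℕ := (vts L).sup nrm with hM
  refine ⟨max N (2 * M + 1), fun x hx => ?_⟩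
  have hxN : N ≤ nrm x := (le_max_left _ _).trans hx
  have hxM : 2 * M + 1 ≤ nrm x := (le_max_right _ _).trans hx
  have hinf : ∀ T ∈ L.powerset, ∀ z : Fin d → ℤ, N ≤ nrm z → Infin (exw L T) z := by
    intro T hT z hz
    have hnT : n T ≤ N := Finset.le_sup (f := n) hT
    unfold Infin
    have hd0 : 0 < d := by omega
    have hinj : Function.Injective (fun k : ℕ => (fun _ : Fin d => ((N + k : ℕ) : ℤ))) := by
      intro a b hab
      have := congrFun hab ⟨0, hd0⟩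
      simp only [Nat.cast_add, add_right_inj, Nat.cast_inj] at this
      exact this
    refine (Set.infinite_range_of_injective hinj).mono ?_
    rintro _ ⟨k, rfl⟩
    show LConn (exw L T) z _
    apply hn T
    · omega
    · refine hnT.trans ?_
      unfold nrm
      have : ((fun _ : Fin d => ((N + k : ℕ) : ℤ)) ⟨0, hd0⟩).natAbs ≤
        Finset.univ.sup fun i : Fin d => ((fun _ : Fin d => ((N + k : ℕ) : ℤ)) i).natAbs :=
        Finset.le_sup (f := fun i : Fin d => ((fun _ : Fin d => ((N + k : ℕ) : ℤ)) i).natAbs)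
          (Finset.mem_univ (⟨0, hd0⟩ : Fin d))
      simp only [Int.natAbs_natCast] at this ⊢
      omega
  have hAin : ∀ T ∈ L.powerset, exw L T ∈ cs1A N (0 : Fin d → ℤ) → exw L T ∈ IN 0 := by
    intro T hT ⟨z, hz, hc⟩
    rw [sub_zero] at hz
    have h2 := hinf T hT z hz
    show Infin (exw L T) 0
    unfold Infin at h2 ⊢
    refine h2.mono ?_
    intro w hw
    exact Relation.ReflTransGen.trans hc hw
  -- the translated box
  set g : lat d ≃g lat d := cs1_tr (-x) with hg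
  set L2 : Finset (Ed d) := L.map g.symm.mapEdgeSet.toEmbedding with hL2
  obtain ⟨hI1, hI2, -, -⟩ := hINV d g
  have hgz : ∀ z, g z = z - x := by
    intro z
    show z + -x = z - x
    abel
  have hpre : pb g ⁻¹' (cs1A N x) = cs1A N (0 : Fin d → ℤ) := by
    ext ω
    constructor
    · rintro ⟨z, hz, hc⟩
      refine ⟨z - x, by rwa [sub_zero], ?_⟩
      have : ω ∈ pb g ⁻¹' CN x z := hc
      rw [hI2, hgz, hgz, sub_self] at this
      exact this
    · rintro ⟨z, hz, hc⟩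
      refine ⟨z + x, ?_, ?_⟩
      · rw [add_sub_cancel_right]
        rwa [sub_zero] at hz
      · show ω ∈ pb g ⁻¹' CN x (z + x)
        rw [hI2, hgz, hgz, sub_self, add_sub_cancel_right]
        exact hc
  have hB : PW β L2 (cs1A N x) = PW β L (cs1A N 0) := by
    rw [hL2, ← hI1, hpre]
  have hdisj : Disjoint L L2 := by
    rw [Finset.disjoint_left]
    intro e he he2
    rw [hL2, Finset.mem_map] at he2
    obtain ⟨e', he', hee⟩ := he2
    obtain ⟨v, hv⟩ : ∃ v, v ∈ le e' := by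
      obtain ⟨⟨a, b⟩, hab⟩ := Quot.exists_rep (le e')
      exact ⟨a, by rw [← hab]; exact Sym2.mem_mk_left a b⟩
    have hv1 : nrm v ≤ M := by
      apply Finset.le_sup (f := nrm)
      rw [vts, Finset.mem_biUnion]
      exact ⟨e', he', Sym2.mem_toFinset.2 hv⟩
    have hv2 : v + x ∈ le e := by
      have : le e = Sym2.map g.symm (le e') := by
        rw [← hee]
        rfl
      rw [this, Sym2.mem_map]
      refine ⟨v, hv, ?_⟩
      rw [g.symm_apply_eq, hgz, add_sub_cancel_right]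
    have hv3 : nrm (v + x) ≤ M := by
      apply Finset.le_sup (f := nrm)
      rw [vts, Finset.mem_biUnion]
      exact ⟨e, he, Sym2.mem_toFinset.2 hv2⟩
    have := cs1_nrm v x
    omega
  have hU1 : IsUpperSet (UF K ∩ cs1A N (0 : Fin d → ℤ)) :=
    (hUPS d 0 0 K).2.2.inter (cs1A_upper hUPS N 0)
  have hU2 : IsUpperSet (UF K ∩ CN (0 : Fin d → ℤ) x) := (hUPS d 0 0 K).2.2.inter (hUPS d 0 x K).1
  obtain ⟨hl, -⟩ := hLIM d β hβ
  refine ((hl _ hU2).2.2.2 (L ∪ L2)).trans ?_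
  obtain ⟨-, hC⟩ := hCONT d (L ∪ L2)
  obtain ⟨-, -, hm, -, -⟩ := hC β hβ
  have h3 : PW β (L ∪ L2) (UF K ∩ CN 0 x) ≤
      PW β (L ∪ L2) ((UF K ∩ cs1A N 0) ∩ cs1A N x) := by
    apply hm
    rintro ω ⟨h1, h2⟩
    refine ⟨⟨h1, x, by rwa [sub_zero], h2⟩, 0, ?_, ?_⟩
    · have : nrm ((0 : Fin d → ℤ) - x) = nrm x := by
        unfold nrm
        congr 1
        ext i
        simp
      rw [this]
      exact hxN
    · show Conn le (op ω) x 0
      have hs : Std.Symm (Step le (op ω)) := by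
        refine ⟨?_⟩
        rintro a b ⟨e, he, h⟩
        exact ⟨e, he, by rw [h, Sym2.eq_swap]⟩
      exact (Relation.ReflTransGen.stdSymm (r := Step le (op ω))).symm _ _ h2
  refine h3.trans ((hDOM d β hβ L L2 (L ∪ L2) hdisj Finset.subset_union_left
    Finset.subset_union_right _ _ hU1 (cs1A_upper hUPS N x)).trans ?_)
  rw [hB]
  obtain ⟨-, hC'⟩ := hCONT d L
  obtain ⟨-, -, hm', -, hc'⟩ := hC' β hβ
  have h4 : PW β L (cs1A N 0) ≤ PW β L (IN 0) := by
    rw [hc' (cs1A N 0) (cs1A N 0 ∩ IN 0)]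
    · exact hm' _ _ Set.inter_subset_right
    · intro T hT
      exact ⟨fun h => ⟨h, hAin T (Finset.mem_powerset.2 hT) h⟩, fun h => h.1⟩
  have h5 : PW β L (UF K ∩ cs1A N 0) ≤ PW β L (UF K ∩ IN 0) := by
    rw [hc' (UF K ∩ cs1A N 0) ((UF K ∩ cs1A N 0) ∩ IN 0)]
    · exact hm' _ _ (fun ω h => ⟨h.1.1, h.2⟩)
    · intro T hT
      exact ⟨fun h => ⟨h, hAin T (Finset.mem_powerset.2 hT) h.2⟩, fun h => h.1⟩
  exact mul_le_mul h5 h4 (cs1_PW_nonneg hd hFKG hLIM hTWB hLATC hCONT hUPS hβ L _)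
    (cs1_PW_nonneg hd hFKG hLIM hTWB hLATC hCONT hUPS hβ L _)

theorem cs1_tendsto (K : Finset (Ed d)) :
    Tendsto (fun x : Fin d → ℤ => mW β (UF K ∩ CN 0 x)) (comap nrm atTop)
      (𝓝 (mW β (UF K ∩ IN 0) * th d β)) := by
  have hU1 : IsUpperSet (UF K ∩ IN (0 : Fin d → ℤ)) :=
    (hUPS d 0 0 K).2.2.inter (hUPS d 0 0 K).2.1
  have hU3 : IsUpperSet (IN (0 : Fin d → ℤ)) := (hUPS d 0 0 K).2.1
  obtain ⟨hl, -⟩ := hLIM d β hβ
  have hlim : Tendsto (fun Λ : Finset (Ed d) => PW β Λ (UF K ∩ IN 0) * PW β Λ (IN 0)) atTop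
      (𝓝 (mW β (UF K ∩ IN 0) * th d β)) := (hl _ hU1).1.mul (hl _ hU3).1
  rw [tendsto_order]
  constructor
  · intro a ha
    refine Eventually.of_forall fun x => ha.trans_le ?_
    exact cs1_lower hd hFKG hLIM hTWB hLATC hCONT hUPS hβ K x
  · intro a ha
    obtain ⟨L, hL⟩ := ((tendsto_order.1 hlim).2 a ha).exists
    obtain ⟨R, hR⟩ := cs1_upper hd hDOM hFKG hLIM hTWB hLATC hCONT hUPS hINV hβ K L
    rw [eventually_comap]
    filter_upwards [eventually_ge_atTop R] with m hm x hx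
    exact (hR x (by omega)).trans_lt hL

omit hDOM hFKG hTWB hLATC hCONT hINV hd in
theorem cs1_lW (F : Finset (Ed d)) (B : Set (Cfg d)) (hB : IsUpperSet B) :
    lW β (EF F ∩ B) = ∑ K ∈ F.powerset, (-1 : ℝ) ^ K.card * mW β (UF K ∩ B) := by
  obtain ⟨hl, hl2⟩ := hLIM d β hβ
  have hcyl : IsCyl (EF F : Set (Cfg d)) := by
    refine ⟨F, fun ω ω' h => ?_⟩
    constructor
    · intro h1 e he
      rw [← h e he]
      exact h1 e he
    · intro h1 e he
      rw [h e he]
      exact h1 e he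
  have h1 := (hl2 _ _ hcyl hB).1
  have h2 : Tendsto (fun Λ : Finset (Ed d) => PW β Λ (EF F ∩ B)) atTop
      (𝓝 (∑ K ∈ F.powerset, (-1 : ℝ) ^ K.card * mW β (UF K ∩ B))) := by
    simp_rw [cs1_incl]
    apply tendsto_finsetSum
    intro K _
    exact ((hl _ ((hUPS d 0 0 K).2.2.inter hB)).1).const_mul _
  exact tendsto_nhds_unique h1 h2

end

theorem st_CS1 (hDOM : ST_DOM) (hFKG : ST_FKG) (hLIM : ST_LIM) (hTWB : ST_TWB)
    (hLATC : ST_LATC) (hCONT : ST_CONT) (hUPS : ST_UPS) (hINV : ST_INV) : ST_CS1 := by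
  intro d hd βc hβc hth F ε hε
  have hβ : 0 ≤ βc := hβc.le
  have hU : IsUpperSet (IN (0 : Fin d → ℤ)) := (hUPS d 0 0 ∅).2.1
  obtain ⟨hl, hl2⟩ := hLIM d βc hβ
  have hcyl : IsCyl (EF F : Set (Cfg d)) := by
    refine ⟨F, fun ω ω' h => ?_⟩
    constructor
    · intro h1 e he
      rw [← h e he]
      exact h1 e he
    · intro h1 e he
      rw [h e he]
      exact h1 e he
  -- the limit
  set ℓ : ℝ := lW βc (EF F ∩ IN (0 : Fin d → ℤ)) / th d βc with hℓ
  have hx : Tendsto (fun x : Fin d → ℤ => lW βc (EF F ∩ CN 0 x) / S2 βc x) (comap nrm atTop)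
      (𝓝 ℓ) := by
    have h1 : Tendsto (fun x : Fin d → ℤ => lW βc (EF F ∩ CN 0 x)) (comap nrm atTop)
        (𝓝 (lW βc (EF F ∩ IN (0 : Fin d → ℤ)) * th d βc)) := by
      rw [cs1_lW hLIM hUPS hβ F _ hU, Finset.sum_mul]
      have : (fun x : Fin d → ℤ => lW βc (EF F ∩ CN 0 x)) = fun x =>
          ∑ K ∈ F.powerset, (-1 : ℝ) ^ K.card * mW βc (UF K ∩ CN 0 x) := by
        ext x
        exact cs1_lW hLIM hUPS hβ F _ (hUPS d 0 x ∅).1
      rw [this]
      apply tendsto_finsetSum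
      intro K _
      rw [mul_assoc]
      exact (cs1_tendsto hd hDOM hFKG hLIM hTWB hLATC hCONT hUPS hINV hβ K).const_mul _
    have h2 : Tendsto (fun x : Fin d → ℤ => S2 βc x) (comap nrm atTop)
        (𝓝 (th d βc * th d βc)) := by
      have := cs1_tendsto hd hDOM hFKG hLIM hTWB hLATC hCONT hUPS hINV hβ
        (∅ : Finset (Ed d))
      have hu : (UF (∅ : Finset (Ed d)) : Set (Cfg d)) = Set.univ := by
        ext ω
        simp [UF]
      rw [hu] at this
      simp only [Set.univ_inter] at this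
      exact this
    have h3 := h1.div h2 (mul_pos hth hth).ne'
    rw [mul_div_mul_right _ _ hth.ne'] at h3
    exact h3
  have hb : Tendsto (fun β => lW β (EF F ∩ IN (0 : Fin d → ℤ)) / th d β) (𝓝[>] βc) (𝓝 ℓ) := by
    have h1 := (hl2 _ _ hcyl hU).2
    have h2 : Tendsto (fun b => th d b) (𝓝[>] βc) (𝓝 (th d βc)) := (hl _ hU).2.1
    exact h1.div h2 hth.ne'
  have hx' : ∀ᶠ x in comap nrm atTop, |lW βc (EF F ∩ CN 0 x) / S2 βc x - ℓ| < ε / 2 := by
    have := Metric.tendsto_nhds.1 hx (ε / 2) (by linarith)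
    filter_upwards [this] with x hx
    rwa [Real.dist_eq] at hx
  have hb' : ∀ᶠ β in 𝓝[>] βc, |lW β (EF F ∩ IN (0 : Fin d → ℤ)) / th d β - ℓ| < ε / 2 := by
    have := Metric.tendsto_nhds.1 hb (ε / 2) (by linarith)
    filter_upwards [this] with x hx
    rwa [Real.dist_eq] at hx
  rw [eventually_comap, eventually_atTop] at hx'
  obtain ⟨R, hR⟩ := hx'
  obtain ⟨b, hb1, hb2⟩ := (mem_nhdsGT_iff_exists_Ioo_subset).1 hb'
  refine ⟨R, b, hb1, fun x hx β hβ1 hβ2 => ?_⟩
  have h1 := hR (nrm x) hx x rfl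
  have h2 := hb2 ⟨hβ1, hβ2⟩
  simp only [Set.mem_ofPred_eq] at h2
  rw [abs_lt] at h1 h2
  rw [abs_le]
  constructor <;> linarith [h1.1, h1.2, h2.1, h2.2]

end IIC
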