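import Pool.Agent.Helper20.IIC.Stmts

/-! # SIML: Simon's inequality in finite volume -/

namespace IIC

open Filter Topology Set
open scoped BigOperators

theorem siml_fkP_nonneg {V E : Type} [Fintype E] (ends : E → Sym2 V) (β : ℝ) (hβ : 0 ≤ β)
    (A : Set (Finset E)) : 0 ≤ fkP ends β A := by
  have h0 : ∀ T : Finset E, 0 ≤ fkw ends β T := by
    intro T
    unfold fkw
    have : 0 ≤ Real.exp (2 * β) - 1 := by
      have := Real.one_le_exp (show 0 ≤ 2 * β by linarith)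
      linarith
    positivity
  unfold fkP
  apply div_nonneg
  · exact Finset.sum_nonneg fun T _ => Set.indicator_nonneg (fun T _ => h0 T) T
  · exact Finset.sum_nonneg fun T _ => h0 T

theorem st_SIML (hSIMF : ST_SIMF) (hBR : ST_BR) : ST_SIML := by
  classical
  intro d β hβ Λ o y B hB
  obtain ⟨hfin, hconn, hPW⟩ := hBR d Λ
  have : Fintype (QV Λ) := Fintype.ofFinite _
  have hCc : ∀ x z, fkP (qe Λ) β (cn (qe Λ) (qm Λ x) (qm Λ z)) = PW β Λ (CN x z) := by
    intro x z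
    rw [hPW]
    congr 1
    ext T
    exact hconn T x z
  have key := hSIMF (QV Λ) {e // e ∈ Λ} (qe Λ) β (qm Λ o) (qm Λ y) (B.image (qm Λ)) hβ ?_
  · rw [hCc] at key
    refine key.trans ?_
    have e1 : ∑ z ∈ B, PW β Λ (CN o z) * PW β Λ (CN z y) =
        ∑ z ∈ B, fkP (qe Λ) β (cn (qe Λ) (qm Λ o) (qm Λ z)) *
          fkP (qe Λ) β (cn (qe Λ) (qm Λ z) (qm Λ y)) := by
      refine Finset.sum_congr rfl fun z _ => ?_
      rw [hCc, hCc]
    rw [e1]
    exact Finset.sum_image_le_of_nonneg (f := fun z => fkP (qe Λ) β (cn (qe Λ) (qm Λ o) z) *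
          fkP (qe Λ) β (cn (qe Λ) z (qm Λ y)))
      (fun z _ => mul_nonneg (siml_fkP_nonneg _ _ hβ _) (siml_fkP_nonneg _ _ hβ _))
  · intro T hT
    obtain ⟨z, hz, h⟩ := hB _ ((hconn T o y).1 hT)
    exact ⟨qm Λ z, Finset.mem_image_of_mem _ hz, (hconn T o z).2 h⟩

end IIC
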